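import Pool.Agent.H91.QGyro

set_option autoImplicit false

open H91.QGyro in
theorem Pool.Agent.Results.MP_9437d9_an.StableImpliesDefinite.result :
    ∀ (l n : ℕ) (A : ℕ → Mat n), 1 ≤ l → Adm l A → StBdd l A →
    ∀ lam, IsEig (Cm l A) lam →
      Pos (Gm l A) (root (Cm l A) lam) ∨ Neg (Gm l A) (root (Cm l A) lam) :=
  main
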